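import Pool.Agent.Helper83.GD.MainE

/-!
# The Graham-Häggkvist conjecture for `K_{n,n}`, all `n`: trees of small degree or with few leaves
-/

namespace Pool.Agent.Results.MP_2fbe9b_co.BoundedDegree

open Finset Pool.Agent.Helper19.GH

/-- There is a `c > 0` such that for every `n` every tree `T` with `n` edges for which the cube of
the maximum degree or the number of leaves is at most `c * n` decomposes `K_{n,n}`. In particular
(`n ≥ Δ ^ 3 / c`) the conjecture holds for all trees of maximum degree at most `Δ` and all large
`n`. -/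
theorem result : ∃ c : ℝ, 0 < c ∧
    ∀ (V : Type) [Fintype V] (T : SimpleGraph V) [DecidableRel T.Adj] (n : ℕ), T.IsTree →
      Fintype.card V = n + 1 →
      min ((T.maxDegree : ℝ) ^ 3) ((univ.filter fun v => T.degree v = 1).card : ℝ) ≤ c * n →
      Decomposes T (completeBipartiteGraph (Fin n) (Fin n)) := by
  obtain ⟨c, hc, h⟩ := Pool.Agent.Helper83.GD.mainE
  exact ⟨c, hc, fun V _ T _ n hT hn hm => h V T n hT hn (min_le_iff.mp hm)⟩

end Pool.Agent.Results.MP_2fbe9b_co.BoundedDegree
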