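import Pool.Agent.Helper80.GH.Dense

/-!
# The Graham-Häggkvist conjecture for `K_{n,n}`, `n` 2-dense
-/

namespace Pool.Agent.Results.MP_2fbe9b_co.DenseDivisors

open Finset Pool.Agent.Helper19.GH Pool.Agent.Helper80.GH

/-- (1) Let `T` be a tree with `n` edges and `B` one of its two colour classes. Suppose that for
every `b` in `B` which is not a leaf one can choose a divisor `M b` of `n` with `M b = deg b` or
`deg b ≤ M b ≤ 2 deg b - 2`, such that the sum of all `M b - deg b` is at most the number of leaves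
in `B`. Then `K_{n,n}` decomposes into copies of `T`.

(2) In particular this holds when `B` is the larger class (`n + 1 ≤ 2 |B|`) and for every `b` in `B`
of degree at least `2` the interval `[deg b, 2 deg b - 2]` contains a divisor of `n`.

(3) In particular, if every divisor `D < n` of `n` is followed by a divisor `D' ≤ 2 D` of `n`, then
`K_{n,n}` decomposes into copies of every tree with `n` edges.

(4) In particular this holds for all `n = 2 ^ k * q` with `1 ≤ q ≤ 2 ^ (k + 1)`. -/
theorem result :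
    (∀ (V : Type) [Fintype V] [DecidableEq V] (T : SimpleGraph V) [DecidableRel T.Adj] (n : ℕ)
      (B : Finset V) (M : V → ℕ), T.IsTree → Fintype.card V = n + 1 →
      (∀ u w, T.Adj u w → (u ∈ B ↔ w ∉ B)) →
      (∀ b ∈ B, T.degree b ≠ 1 → M b ∣ n ∧ T.degree b ≤ M b ∧
        (M b = T.degree b ∨ M b + 2 ≤ 2 * T.degree b)) →
      ∑ b ∈ B.filter (fun b => T.degree b ≠ 1), (M b - T.degree b) ≤
        (B.filter fun b => T.degree b = 1).card →
      Decomposes T (completeBipartiteGraph (Fin n) (Fin n))) ∧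
    (∀ (V : Type) [Fintype V] [DecidableEq V] (T : SimpleGraph V) [DecidableRel T.Adj] (n : ℕ)
      (B : Finset V), T.IsTree → Fintype.card V = n + 1 →
      (∀ u w, T.Adj u w → (u ∈ B ↔ w ∉ B)) → n + 1 ≤ 2 * B.card →
      (∀ b ∈ B, 2 ≤ T.degree b → ∃ M, M ∣ n ∧ T.degree b ≤ M ∧ M + 2 ≤ 2 * T.degree b) →
      Decomposes T (completeBipartiteGraph (Fin n) (Fin n))) ∧
    (∀ n : ℕ, (∀ D, D ∣ n → D < n → ∃ D', D' ∣ n ∧ D < D' ∧ D' ≤ 2 * D) →
      ∀ (V : Type) [Fintype V] (T : SimpleGraph V), T.IsTree → Fintype.card V = n + 1 →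
      Decomposes T (completeBipartiteGraph (Fin n) (Fin n))) ∧
    ∀ k q : ℕ, 1 ≤ q → q ≤ 2 ^ (k + 1) →
      ∀ (V : Type) [Fintype V] (T : SimpleGraph V), T.IsTree → Fintype.card V = 2 ^ k * q + 1 →
      Decomposes T (completeBipartiteGraph (Fin (2 ^ k * q)) (Fin (2 ^ k * q))) :=
  ⟨fun V _ _ T _ n B M hT hn hB hM hsum => general V T n B M hT hn hB hM hsum,
    fun V _ _ T _ n B hT hn hB hl hM => larger_class V T n B hT hn hB hl hM,
    fun n hd V _ T hT hn => two_dense V T n hT hn hd,
    fun k q hq hqk V _ T hT hn => two_dense V T (2 ^ k * q) hT hn (dense_two_pow_mul k q hq hqk)⟩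

end Pool.Agent.Results.MP_2fbe9b_co.DenseDivisors
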