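import Pool.Agent.Helper1.GU.Main

/-!
# The Graham-Häggkvist conjecture for `K_{n,n}`, all `n`: trees in which few vertices have two or more
neighbours which are not leaves
-/

namespace Pool.Agent.Results.MP_2fbe9b_co.FewHubs

open Finset Pool.Agent.Helper19.GH

/-- For every `n` (no condition on `n`), every tree `T` with `n` edges in which at most `n / 10^7`
vertices have two or more neighbours which are not leaves decomposes `K_{n,n}`.
There is no condition on the degrees of `T`. -/
theorem result (V : Type) [Fintype V] (T : SimpleGraph V) [DecidableRel T.Adj] (n : ℕ)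
    (hT : T.IsTree) (hn : Fintype.card V = n + 1)
    (hs : 10000000 * (univ.filter fun x =>
      2 ≤ (univ.filter fun y => T.Adj x y ∧ T.degree y ≠ 1).card).card ≤ n) :
    Decomposes T (completeBipartiteGraph (Fin n) (Fin n)) := by
  refine Pool.Agent.Helper1.GU.few_hubs V T n hT hn (le_trans (le_of_eq ?_) hs)
  congr 3
  ext x
  simp only [← SimpleGraph.card_neighborSet_eq_degree, Fintype.card_eq_nat_card]

end Pool.Agent.Results.MP_2fbe9b_co.FewHubs
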