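import Pool.Agent.Helper80.GH2.Final

/-!
# The Graham-Häggkvist conjecture for `K_{n,n}`, all `n`, trees with a small colour class
-/

namespace Pool.Agent.Results.MP_2fbe9b_co.SmallClass

open Pool.Agent.Helper19.GH

/-- For every `n` (no condition on `n`), every tree `T` with `n` edges one of whose two colour
classes `A` has at most `n / 20` vertices decomposes `K_{n,n}`. If `n` is even, at most `n / 10`
vertices suffice. There is no condition on the degrees or on the shape of `T`. -/
theorem result (V : Type) [Fintype V] (T : SimpleGraph V) (n : ℕ) (A : Finset V)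
    (hT : T.IsTree) (hn : Fintype.card V = n + 1) (hA : ∀ u w, T.Adj u w → (u ∈ A ↔ w ∉ A))
    (hsmall : 20 * A.card ≤ n ∨ (Even n ∧ 10 * A.card ≤ n)) :
    Decomposes T (completeBipartiteGraph (Fin n) (Fin n)) :=
  Pool.Agent.Helper80.GH2.small_class V T n A hT hn hA hsmall

end Pool.Agent.Results.MP_2fbe9b_co.SmallClass
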